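import Pool.Agent.helper7.TW.SpecC

set_option autoImplicit false

open Finset Classical

namespace Pool.Agent.TW

theorem LSP_log108 : Real.log 108 ≤ 5 := by
  have h : (108 : ℝ) ≤ Real.exp 5 := by
    have h1 : (2.7182818283 : ℝ) < Real.exp 1 := Real.exp_one_gt_d9
    have h2 : Real.exp 5 = Real.exp 1 ^ 5 := by
      rw [← Real.exp_nat_mul]; norm_num
    rw [h2]
    have h3 : (2.7 : ℝ) ^ 5 ≤ Real.exp 1 ^ 5 := by
      apply pow_le_pow_left₀ (by norm_num)
      linarith
    refine le_trans ?_ h3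
    norm_num
  calc Real.log 108 ≤ Real.log (Real.exp 5) := Real.log_le_log (by norm_num) h
    _ = 5 := Real.log_exp 5

theorem LSP_pow108 (s : ℕ) : (108 : ℝ) ^ s ≤ Real.exp (5 * s) := by
  have h : (108 : ℝ) = Real.exp (Real.log 108) := (Real.exp_log (by norm_num)).symm
  rw [h, ← Real.exp_nat_mul]
  apply Real.exp_le_exp.mpr
  have := LSP_log108
  have hs : (0 : ℝ) ≤ s := Nat.cast_nonneg s
  nlinarith

theorem LSP_term (n L : ℝ) (q s : ℕ) (hn : 0 < n) (hq : 1 ≤ q) (hL : 0 < L)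
    (hx : n = q * Real.exp L) (hs : 1000 * (s : ℝ) < q * L) :
    (108 : ℝ) ^ s * (36 * s / n) ^ q ≤ 0.144 ^ q * Real.exp (-(q * L / 2)) := by
  have hq0 : (0 : ℝ) < q := by exact_mod_cast hq
  have h1 : (108 : ℝ) ^ s ≤ Real.exp (q * L / 200) := by
    refine le_trans (LSP_pow108 s) (Real.exp_le_exp.mpr ?_)
    nlinarith
  have hL4 : L ≤ 4 * Real.exp (L / 4) := by
    have := Real.add_one_le_exp (L / 4)
    linarith
  have h2 : 36 * (s : ℝ) / n ≤ 0.144 * Real.exp (-(3 * L / 4)) := by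
    rw [div_le_iff₀ hn, hx]
    have h3 : Real.exp (-(3 * L / 4)) * Real.exp L = Real.exp (L / 4) := by
      rw [← Real.exp_add]; congr 1; ring
    have h4 : 0.144 * Real.exp (-(3 * L / 4)) * (q * Real.exp L) = 0.144 * q * Real.exp (L / 4) := by
      calc 0.144 * Real.exp (-(3 * L / 4)) * (q * Real.exp L)
          = 0.144 * q * (Real.exp (-(3 * L / 4)) * Real.exp L) := by ring
        _ = 0.144 * q * Real.exp (L / 4) := by rw [h3]
    rw [h4]
    have h5 : (q : ℝ) * L ≤ q * (4 * Real.exp (L / 4)) := mul_le_mul_of_nonneg_left hL4 hq0.le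
    nlinarith
  have h0 : 0 ≤ 36 * (s : ℝ) / n := by positivity
  have h3 : (36 * (s : ℝ) / n) ^ q ≤ (0.144 * Real.exp (-(3 * L / 4))) ^ q :=
    pow_le_pow_left₀ h0 h2 q
  have h4 : (0.144 * Real.exp (-(3 * L / 4))) ^ q = 0.144 ^ q * Real.exp (-(3 * L * q / 4)) := by
    rw [mul_pow, ← Real.exp_nat_mul]
    congr 2
    ring
  calc (108 : ℝ) ^ s * (36 * s / n) ^ q
      ≤ Real.exp (q * L / 200) * (0.144 ^ q * Real.exp (-(3 * L * q / 4))) := by
        rw [← h4]
        exact mul_le_mul h1 h3 (pow_nonneg h0 q) (Real.exp_pos _).le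
    _ = 0.144 ^ q * Real.exp (q * L / 200 + -(3 * L * q / 4)) := by
        rw [Real.exp_add]; ring
    _ ≤ 0.144 ^ q * Real.exp (-(q * L / 2)) := by
        apply mul_le_mul_of_nonneg_left _ (by positivity)
        apply Real.exp_le_exp.mpr
        have : 0 < (q : ℝ) * L := by positivity
        nlinarith

/-- the sum over `s` -/
theorem LSP_inner (M : ℕ) [NeZero M] (q : ℕ) (hq : 1 ≤ q) :
    ∑ s ∈ (Finset.Icc 1 (12 * M)).filter (fun s : ℕ => 1000 * (s : ℝ) < q * Real.log (12 * M / q)),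
      (108 : ℝ) ^ s * (3 * (s : ℝ) / M) ^ q ≤ 0.004 * 0.288 ^ q := by
  have hM : (0 : ℝ) < M := by exact_mod_cast Nat.pos_of_ne_zero (NeZero.ne M)
  have hq0 : (0 : ℝ) < q := by exact_mod_cast hq
  set L := Real.log (12 * M / q) with hLdef
  have hn : (0 : ℝ) < 12 * M := by positivity
  have hx : (12 * M : ℝ) = q * Real.exp L := by
    rw [hLdef, Real.exp_log (by positivity)]
    field_simp
  by_cases hL : 0 < L
  · have hL4 : L ≤ 4 * Real.exp (L / 4) := by
      have := Real.add_one_le_exp (L / 4)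
      linarith
    have hterm : ∀ s ∈ (Finset.Icc 1 (12 * M)).filter (fun s : ℕ => 1000 * (s : ℝ) < q * L),
        (108 : ℝ) ^ s * (3 * (s : ℝ) / M) ^ q ≤ 0.144 ^ q * Real.exp (-(q * L / 2)) := by
      intro s hs
      rw [Finset.mem_filter] at hs
      have h := LSP_term (12 * M) L q s hn hq hL hx hs.2
      have he : 36 * (s : ℝ) / (12 * M) = 3 * s / M := by
        field_simp
        ring
      rw [he] at h
      exact h
    have hcard : (((Finset.Icc 1 (12 * M)).filter (fun s : ℕ => 1000 * (s : ℝ) < q * L)).card : ℝ)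
        ≤ q * L / 1000 := by
      have hsub : (Finset.Icc 1 (12 * M)).filter (fun s : ℕ => 1000 * (s : ℝ) < q * L) ⊆
          Finset.Icc 1 ⌊(q : ℝ) * L / 1000⌋₊ := by
        intro s hs
        rw [Finset.mem_filter, Finset.mem_Icc] at hs
        rw [Finset.mem_Icc]
        refine ⟨hs.1.1, Nat.le_floor ?_⟩
        linarith [hs.2]
      have h1 := Finset.card_le_card hsub
      rw [Nat.card_Icc, Nat.add_sub_cancel] at h1
      calc (((Finset.Icc 1 (12 * M)).filter (fun s : ℕ => 1000 * (s : ℝ) < q * L)).card : ℝ)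
          ≤ (⌊(q : ℝ) * L / 1000⌋₊ : ℝ) := by exact_mod_cast h1
        _ ≤ q * L / 1000 := Nat.floor_le (by positivity)
    have hsum := Finset.sum_le_card_nsmul _ _ _ hterm
    rw [nsmul_eq_mul] at hsum
    refine le_trans hsum ?_
    have h2q : (q : ℝ) ≤ 2 ^ q := by
      exact_mod_cast (Nat.lt_two_pow_self (n := q)).le
    calc (((Finset.Icc 1 (12 * M)).filter (fun s : ℕ => 1000 * (s : ℝ) < q * L)).card : ℝ) *
          (0.144 ^ q * Real.exp (-(q * L / 2)))
        ≤ (q * L / 1000) * (0.144 ^ q * Real.exp (-(q * L / 2))) := by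
          apply mul_le_mul_of_nonneg_right hcard (by positivity)
      _ ≤ (q * (4 * Real.exp (L / 4)) / 1000) * (0.144 ^ q * Real.exp (-(q * L / 2))) := by
          apply mul_le_mul_of_nonneg_right _ (by positivity)
          have := mul_le_mul_of_nonneg_left hL4 hq0.le
          linarith
      _ = 0.004 * q * 0.144 ^ q * Real.exp (L / 4 + -(q * L / 2)) := by
          rw [Real.exp_add]; ring
      _ ≤ 0.004 * 2 ^ q * 0.144 ^ q * 1 := by
          apply mul_le_mul _ _ (Real.exp_pos _).le (by positivity)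
          · apply mul_le_mul_of_nonneg_right _ (by positivity)
            linarith
          · apply Real.exp_le_one_iff.mpr
            have : (1 : ℝ) ≤ q := by exact_mod_cast hq
            nlinarith
      _ = 0.004 * 0.288 ^ q := by
          rw [mul_one, mul_assoc, ← mul_pow]; norm_num
  · have hempty : (Finset.Icc 1 (12 * M)).filter (fun s : ℕ => 1000 * (s : ℝ) < q * L) = ∅ := by
      apply Finset.filter_eq_empty_iff.mpr
      intro s _
      rw [not_lt]
      push Not at hL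
      have : (0 : ℝ) ≤ s := Nat.cast_nonneg s
      nlinarith
    rw [hempty, Finset.sum_empty]
    positivity

theorem LSP_geom (n : ℕ) : ∑ q ∈ Finset.Icc 1 n, (0.004 : ℝ) * 0.288 ^ q ≤ 1 / 8 := by
  have h : ∀ n : ℕ, ∑ q ∈ Finset.Icc 1 n, (0.004 : ℝ) * 0.288 ^ q ≤ 1 / 8 - 1 / 8 * 0.288 ^ n := by
    intro n
    induction n with
    | zero => simp
    | succ n ih =>
      rw [Finset.sum_Icc_succ_top (by omega)]
      have : (0 : ℝ) < 0.288 ^ n := by positivity
      rw [pow_succ]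
      nlinarith
  have := h n
  have : (0 : ℝ) < 0.288 ^ n := by positivity
  linarith [h n]

theorem LSP (hFM : FM_stmt) : LSP_stmt := by
  intro M _
  set n := 12 * M with hn
  set E := Sym2 (Fin (12 * M)) → Fin M
  set cnt : ℕ → ℕ → E → ℝ := fun s q w =>
    (((univ : Finset (Finset (Fin (12 * M)))).filter
      (fun T => T.card = s ∧ s + q ≤ e1 (GR w) T)).card : ℝ) with hcnt
  set Sq : ℕ → Finset ℕ := fun q =>
    (Finset.Icc 1 (12 * M)).filter (fun s : ℕ => 1000 * (s : ℝ) < q * Real.log (12 * M / q)) with hSq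
  have hbad : ∀ w : E, (if (∃ (T : Finset (Fin (12 * M))) (q : ℕ),
      T.Nonempty ∧ 1 ≤ q ∧ q ≤ 12 * M ∧ 1000 * (T.card : ℝ) < q * Real.log (12 * M / q) ∧
        T.card + q ≤ e1 (GR w) T) then (1 : ℝ) else 0) ≤
      ∑ q ∈ Finset.Icc 1 (12 * M), ∑ s ∈ Sq q, cnt s q w := by
    intro w
    have hnn : ∀ q s, 0 ≤ cnt s q w := fun q s => Nat.cast_nonneg _
    split_ifs with hb
    · obtain ⟨T, q, hT, hq1, hq2, hq3, hq4⟩ := hb
      have hqm : q ∈ Finset.Icc 1 (12 * M) := Finset.mem_Icc.mpr ⟨hq1, hq2⟩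
      have hsm : T.card ∈ Sq q := by
        rw [hSq]
        simp only [Finset.mem_filter, Finset.mem_Icc]
        refine ⟨⟨Finset.card_pos.mpr hT, ?_⟩, hq3⟩
        have := Finset.card_le_univ T
        rwa [Fintype.card_fin] at this
      have h1 : (1 : ℝ) ≤ cnt T.card q w := by
        rw [hcnt]
        simp only
        have : 0 < ((univ : Finset (Finset (Fin (12 * M)))).filter
            (fun T' => T'.card = T.card ∧ T.card + q ≤ e1 (GR w) T')).card := by
          apply Finset.card_pos.mpr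
          exact ⟨T, by simp [hq4]⟩
        exact_mod_cast this
      calc (1 : ℝ) ≤ cnt T.card q w := h1
        _ ≤ ∑ s ∈ Sq q, cnt s q w :=
            Finset.single_le_sum (f := fun s => cnt s q w) (fun s _ => hnn q s) hsm
        _ ≤ _ := Finset.single_le_sum (f := fun q => ∑ s ∈ Sq q, cnt s q w)
            (fun q _ => Finset.sum_nonneg fun s _ => hnn q s) hqm
    · exact Finset.sum_nonneg fun q _ => Finset.sum_nonneg fun s _ => hnn q s
  have hcardeq : ((((univ : Finset E).filter (fun w => ∃ (T : Finset (Fin (12 * M))) (q : ℕ),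
      T.Nonempty ∧ 1 ≤ q ∧ q ≤ 12 * M ∧ 1000 * (T.card : ℝ) < q * Real.log (12 * M / q) ∧
        T.card + q ≤ e1 (GR w) T)).card : ℕ) : ℝ) =
      ∑ w : E, (if (∃ (T : Finset (Fin (12 * M))) (q : ℕ),
      T.Nonempty ∧ 1 ≤ q ∧ q ≤ 12 * M ∧ 1000 * (T.card : ℝ) < q * Real.log (12 * M / q) ∧
        T.card + q ≤ e1 (GR w) T) then (1 : ℝ) else 0) := by
    rw [Finset.card_filter]
    push_cast
    rfl
  set D : ℝ := (M : ℝ) ^ Fintype.card (Sym2 (Fin (12 * M))) with hD
  have hDnn : 0 ≤ D := by positivity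
  have hmain : ((((univ : Finset E).filter (fun w => ∃ (T : Finset (Fin (12 * M))) (q : ℕ),
      T.Nonempty ∧ 1 ≤ q ∧ q ≤ 12 * M ∧ 1000 * (T.card : ℝ) < q * Real.log (12 * M / q) ∧
        T.card + q ≤ e1 (GR w) T)).card : ℕ) : ℝ) ≤ D * (1 / 8) := by
    rw [hcardeq]
    calc ∑ w : E, (if (∃ (T : Finset (Fin (12 * M))) (q : ℕ),
        T.Nonempty ∧ 1 ≤ q ∧ q ≤ 12 * M ∧ 1000 * (T.card : ℝ) < q * Real.log (12 * M / q) ∧
        T.card + q ≤ e1 (GR w) T) then (1 : ℝ) else 0)
        ≤ ∑ w : E, ∑ q ∈ Finset.Icc 1 (12 * M), ∑ s ∈ Sq q, cnt s q w :=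
          Finset.sum_le_sum fun w _ => hbad w
      _ = ∑ q ∈ Finset.Icc 1 (12 * M), ∑ s ∈ Sq q, ∑ w : E, cnt s q w := by
          rw [Finset.sum_comm]
          apply Finset.sum_congr rfl
          intro q _
          rw [Finset.sum_comm]
      _ ≤ ∑ q ∈ Finset.Icc 1 (12 * M), ∑ s ∈ Sq q, D * (108 ^ s * (3 * (s : ℝ) / M) ^ q) := by
          apply Finset.sum_le_sum
          intro q _
          apply Finset.sum_le_sum
          intro s hs
          rw [hSq] at hs
          simp only [Finset.mem_filter, Finset.mem_Icc] at hs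
          exact hFM M s q hs.1.1
      _ = D * ∑ q ∈ Finset.Icc 1 (12 * M), ∑ s ∈ Sq q, 108 ^ s * (3 * (s : ℝ) / M) ^ q := by
          rw [Finset.mul_sum]
          apply Finset.sum_congr rfl
          intro q _
          rw [Finset.mul_sum]
      _ ≤ D * ∑ q ∈ Finset.Icc 1 (12 * M), (0.004 : ℝ) * 0.288 ^ q := by
          apply mul_le_mul_of_nonneg_left _ hDnn
          apply Finset.sum_le_sum
          intro q hq
          exact LSP_inner M q (Finset.mem_Icc.mp hq).1
      _ ≤ D * (1 / 8) := mul_le_mul_of_nonneg_left (LSP_geom _) hDnn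
  linarith

end Pool.Agent.TW
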